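import Pool.Agent.helper32.Hidden.Main

/-!
# MP_ec84ce_an: relative hidden-set characterization of polyhedric convex sets
-/

namespace Pool.Agent.Results.MP_ec84ce_an.HiddenPolyhedric

open Pool.Agent.helper32.Hidden

theorem result (X : Type*) [AddCommGroup X] [Module ℝ X] [TopologicalSpace X]
    [IsTopologicalAddGroup X] [ContinuousSMul ℝ X] [TopologicalSpace.IsCompletelyMetrizableSpace X]
    (C D : Set X) (hCclosed : IsClosed C) (hDclosed : IsClosed D) (hC : Convex ℝ C)
    (hD : Convex ℝ D) (hCD : C ⊆ D) :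
    (∀ A ⊆ D \ C, A.Infinite → ¬ Hides C A) ↔ PolyhedricIn C (D ∩ affineSpan ℝ C) := by
  rcases C.eq_empty_or_nonempty with rfl | hne
  · constructor
    · intro _
      refine ⟨0, fun _ => ∅, fun _ => ⟨Set.empty_subset _, convex_empty, ?_⟩, ?_⟩
      · simpa using convex_empty
      · exact (Set.iInter_const _).symm
    · intro _ A _ hinf h
      obtain ⟨a, ha, b, hb, hab⟩ := hinf.nontrivial
      obtain ⟨z, -, hz⟩ := h a ha b hb hab
      exact hz
  · exact ⟨polyhedricIn_of_not_hides hCclosed hDclosed hC hD hCD hne,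
      fun h A hA hinf => not_hides_of_polyhedricIn hne h A hA hinf⟩

end Pool.Agent.Results.MP_ec84ce_an.HiddenPolyhedric
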